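import Pool.Agent.V1198.GaussLp5

/-!
# MP_30e1ee_an, Q1: the weak maximizing property for `(L_p, L_q)`, `1 < p ≤ 2 ≤ q < ∞`
-/

set_option autoImplicit false

noncomputable section

open MeasureTheory ProbabilityTheory Filter Topology
open scoped ENNReal MeasureTheory

namespace Pool.Agent.Results.MP_30e1ee_an.NoWMP

open Pool.Agent.V1198.GL

/-- The weak maximizing property of a pair `(E, F)`. -/
def WMP (𝕜 : Type) [RCLike 𝕜] (E F : Type) [NormedAddCommGroup E] [NormedSpace 𝕜 E]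
    [NormedAddCommGroup F] [NormedSpace 𝕜 F] : Prop :=
  ∀ T : E →L[𝕜] F,
    (∃ x : ℕ → E, (∀ n, ‖x n‖ = 1) ∧ Tendsto (fun n => ‖T (x n)‖) atTop (𝓝 ‖T‖) ∧
      ¬ ∀ f : StrongDual 𝕜 E, Tendsto (fun n => f (x n)) atTop (𝓝 0)) →
    ∃ x₀ : E, ‖x₀‖ = 1 ∧ ‖T x₀‖ = ‖T‖

theorem not_wmp (𝕜 : Type) [RCLike 𝕜] (E F : Type) [NormedAddCommGroup E] [NormedSpace 𝕜 E]
    [NormedAddCommGroup F] [NormedSpace 𝕜 F] (T : E →L[𝕜] F) (c : ℝ) (hc : 1 < c)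
    (h1 : ∀ x, x ≠ 0 → ‖T x‖ < c * ‖x‖) (h2 : c ≤ ‖T‖) (f : StrongDual 𝕜 E)
    (h3 : ∀ x, ‖T x‖ ≤ ‖f x‖ + ‖x‖) : ¬ WMP 𝕜 E F := by
  intro h
  have hT : 0 < ‖T‖ := (one_pos.trans hc).trans_le h2
  have hex : ∀ n : ℕ, ∃ x : E, ‖x‖ = 1 ∧ ‖T‖ * (1 - 1 / ((n : ℝ) + 2)) < ‖T x‖ := by
    intro n
    have h4 : ‖T‖ * (1 - 1 / ((n : ℝ) + 2)) < ‖T‖ := by
      have h5 : (0 : ℝ) < 1 / ((n : ℝ) + 2) := by positivity
      nlinarith
    obtain ⟨x, hx, hlt⟩ := T.exists_lt_apply_of_lt_opNorm h4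
    have h6 : (0 : ℝ) < 1 - 1 / ((n : ℝ) + 2) := by
      rw [sub_pos, div_lt_one (by positivity)]
      linarith [(Nat.cast_nonneg n : (0 : ℝ) ≤ n)]
    have h7 : 0 < ‖T x‖ := lt_trans (by positivity) hlt
    have hx0 : x ≠ 0 := by
      rintro rfl
      simp at h7
    have hx1 : 0 < ‖x‖ := norm_pos_iff.2 hx0
    refine ⟨((‖x‖⁻¹ : ℝ) : 𝕜) • x, ?_, ?_⟩
    · rw [norm_smul, RCLike.norm_ofReal, abs_of_pos (inv_pos.2 hx1), inv_mul_cancel₀ hx1.ne']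
    · rw [map_smul, norm_smul, RCLike.norm_ofReal, abs_of_pos (inv_pos.2 hx1)]
      refine hlt.trans_le ?_
      have h8 : 1 ≤ ‖x‖⁻¹ := (one_le_inv₀ hx1).2 hx.le
      nlinarith
  choose x hx1 hx2 using hex
  have hlim : Tendsto (fun n => ‖T (x n)‖) atTop (𝓝 ‖T‖) := by
    have h4 : Tendsto (fun n : ℕ => ‖T‖ * (1 - 1 / ((n : ℝ) + 2))) atTop (𝓝 (‖T‖ * (1 - 0))) := by
      have h5 : Tendsto (fun n : ℕ => 1 / ((n : ℝ) + 2)) atTop (𝓝 0) := by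
        have h6 := (tendsto_one_div_add_atTop_nhds_zero_nat (𝕜 := ℝ)).comp (tendsto_add_atTop_nat 1)
        refine h6.congr fun n => ?_
        simp only [Function.comp_apply]
        push_cast
        ring
      exact (h5.const_sub 1).const_mul _
    rw [sub_zero, mul_one] at h4
    refine tendsto_of_tendsto_of_tendsto_of_le_of_le h4 tendsto_const_nhds
      (fun n => (hx2 n).le) (fun n => ?_)
    have := T.le_opNorm (x n)
    rwa [hx1, mul_one] at this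
  obtain ⟨x0, hx0, hTx0⟩ := h T ⟨x, hx1, hlim, fun hw => by
    have h4 := (hw f).norm
    rw [norm_zero] at h4
    have h5 : ‖T‖ ≤ 0 + 1 := by
      refine le_of_tendsto_of_tendsto' hlim (h4.add_const 1) fun n => ?_
      have := h3 (x n)
      rwa [hx1] at this
    linarith⟩
  have h4 := h1 x0 (by rintro rfl; simp at hx0)
  rw [hx0, mul_one, hTx0] at h4
  linarith



/-- The case of a non-contractive good operator into the range space. -/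
theorem case_range (𝕜 : Type) [RCLike 𝕜] (X Y Z : Type) [NormedAddCommGroup X] [NormedSpace 𝕜 X]
    [NormedAddCommGroup Y] [NormedSpace 𝕜 Y] [NormedAddCommGroup Z] [NormedSpace 𝕜 Z]
    (P : X →L[𝕜] Z →L[𝕜] 𝕜) (hP : ∀ x z, ‖P x z‖ ≤ ‖x‖ * ‖z‖)
    (hP2 : ∀ z, ∃ x, ‖x‖ ≤ 1 ∧ P x z = ((‖z‖ : ℝ) : 𝕜))
    (V : H2 𝕜 →L[𝕜] Z) (hV : ∀ b, ‖V b‖ = ‖b‖)
    (U : H2 𝕜 →L[𝕜] Y) (w : Y) (hU1 : 1 < ‖U‖) (hU2 : ∀ b, b ≠ 0 → ‖U b‖ < ‖U‖ * ‖b‖)
    (hU3 : ∀ b, ‖U b - b 0 • w‖ ≤ ‖b‖) : ¬ WMP 𝕜 X Y := by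
  obtain ⟨A, hA⟩ := exists_adj 𝕜 P hP V
  have hAn : ∀ x, ‖A x‖ ≤ ‖x‖ := by
    intro x
    have h1 := hA x (star (A x))
    have h2 : ‖star (A x)‖ * ‖star (A x)‖ ≤ ‖x‖ * ‖star (A x)‖ := by
      rw [← sq, ← inner_self_eq_norm_sq (𝕜 := 𝕜), h1]
      refine (RCLike.re_le_norm _).trans ?_
      have h3 := hP x (V (star (A x)))
      rwa [hV] at h3
    rw [norm_star] at h2
    rcases (norm_nonneg (A x)).lt_or_eq with h3 | h3
    · exact le_of_mul_le_mul_right h2 h3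
    · rw [← h3]
      exact norm_nonneg x
  have hAs : ∀ b, ∃ x, ‖x‖ ≤ ‖b‖ ∧ A x = b := by
    intro b
    obtain ⟨x1, hx1, hPx1⟩ := hP2 (V (star b))
    rw [hV, norm_star] at hPx1
    refine ⟨((‖b‖ : ℝ) : 𝕜) • x1, ?_, ?_⟩
    · rw [norm_smul, RCLike.norm_ofReal, abs_norm]
      nlinarith [norm_nonneg b]
    · set x := ((‖b‖ : ℝ) : 𝕜) • x1 with hx
      have hxn : ‖x‖ ≤ ‖b‖ := by
        rw [hx, norm_smul, RCLike.norm_ofReal, abs_norm]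
        nlinarith [norm_nonneg b]
      have h1 : inner 𝕜 (star (A x)) (star b) = ((‖b‖ ^ 2 : ℝ) : 𝕜) := by
        rw [hA, hx, map_smul, _root_.smul_apply, hPx1, smul_eq_mul, ← RCLike.ofReal_mul, sq]
      have h2 : ‖star (A x)‖ ≤ ‖b‖ := by
        rw [norm_star]
        exact (hAn x).trans hxn
      have h3 : ‖star (A x) - star b‖ ^ 2 ≤ 0 := by
        rw [@norm_sub_sq 𝕜, h1, RCLike.ofReal_re, norm_star b]
        nlinarith [norm_nonneg (star (A x)), norm_nonneg b]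
      have h4 : ‖star (A x) - star b‖ = 0 := by nlinarith [norm_nonneg (star (A x) - star b)]
      have h5 : star (A x) = star b := sub_eq_zero.1 (norm_eq_zero.1 h4)
      exact star_injective h5
  refine not_wmp 𝕜 X Y (U.comp A) ‖U‖ hU1 (fun x hx => ?_) ?_
    (((‖w‖ : ℝ) : 𝕜) • ((lp.evalCLM 𝕜 (fun _ : ℕ => 𝕜) 2 0).comp A)) (fun x => ?_)
  · have hx0 : 0 < ‖x‖ := norm_pos_iff.2 hx
    have hU0 : 0 < ‖U‖ := one_pos.trans hU1
    change ‖U (A x)‖ < _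
    by_cases hAx : A x = 0
    · rw [hAx, map_zero, norm_zero]
      positivity
    · exact (hU2 _ hAx).trans_le (mul_le_mul_of_nonneg_left (hAn x) hU0.le)
  · refine ContinuousLinearMap.opNorm_le_bound _ (norm_nonneg _) fun b => ?_
    obtain ⟨x, hx, rfl⟩ := hAs b
    exact ((U.comp A).le_opNorm x).trans (mul_le_mul_of_nonneg_left hx (norm_nonneg _))
  · change ‖U (A x)‖ ≤ ‖((‖w‖ : ℝ) : 𝕜) • (A x 0)‖ + ‖x‖
    have h1 : U (A x) = A x 0 • w + (U (A x) - A x 0 • w) := by abel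
    calc ‖U (A x)‖ ≤ ‖A x 0 • w‖ + ‖U (A x) - A x 0 • w‖ := by
          conv_lhs => rw [h1]
          exact norm_add_le _ _
      _ ≤ ‖((‖w‖ : ℝ) : 𝕜) • (A x 0)‖ + ‖x‖ := by
          refine add_le_add (le_of_eq ?_) ((hU3 _).trans (hAn x))
          rw [norm_smul, norm_smul, RCLike.norm_ofReal, abs_norm, mul_comm]

/-- The case of a non-contractive good operator into the predual of the domain space. -/
theorem case_domain (𝕜 : Type) [RCLike 𝕜] (X Y Z : Type) [NormedAddCommGroup X] [NormedSpace 𝕜 X]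
    [NormedAddCommGroup Y] [NormedSpace 𝕜 Y] [NormedAddCommGroup Z] [NormedSpace 𝕜 Z]
    (P : X →L[𝕜] Z →L[𝕜] 𝕜) (hP : ∀ x z, ‖P x z‖ ≤ ‖x‖ * ‖z‖)
    (hP2 : ∀ z, ∃ x, ‖x‖ ≤ 1 ∧ P x z = ((‖z‖ : ℝ) : 𝕜))
    (V : H2 𝕜 →L[𝕜] Y) (hV : ∀ b, ‖V b‖ = ‖b‖)
    (U : H2 𝕜 →L[𝕜] Z) (w : Z) (hU1 : 1 < ‖U‖) (hU2 : ∀ b, b ≠ 0 → ‖U b‖ < ‖U‖ * ‖b‖)
    (hU3 : ∀ b, ‖U b - b 0 • w‖ ≤ ‖b‖) : ¬ WMP 𝕜 X Y := by
  obtain ⟨A, hA⟩ := exists_adj 𝕜 P hP U
  have hsq : ∀ x, ‖A x‖ ^ 2 ≤ ‖P x (U (star (A x)))‖ := by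
    intro x
    have h1 := hA x (star (A x))
    rw [← norm_star (A x), ← inner_self_eq_norm_sq (𝕜 := 𝕜), h1]
    exact RCLike.re_le_norm _
  refine not_wmp 𝕜 X Y (V.comp A) ‖U‖ hU1 (fun x hx => ?_) ?_ (P.flip w) (fun x => ?_)
  · have hx0 : 0 < ‖x‖ := norm_pos_iff.2 hx
    have hU0 : 0 < ‖U‖ := one_pos.trans hU1
    change ‖V (A x)‖ < _
    rw [hV]
    by_cases hAx : A x = 0
    · rw [hAx, norm_zero]
      positivity
    · have hAx0 : 0 < ‖A x‖ := norm_pos_iff.2 hAx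
      have hsx : star (A x) ≠ 0 := by
        intro h
        exact hAx (star_eq_zero.1 h)
      have h1 := hU2 _ hsx
      rw [norm_star] at h1
      have h2 : ‖A x‖ * ‖A x‖ < (‖U‖ * ‖x‖) * ‖A x‖ := by
        calc ‖A x‖ * ‖A x‖ = ‖A x‖ ^ 2 := (sq _).symm
          _ ≤ ‖P x (U (star (A x)))‖ := hsq x
          _ ≤ ‖x‖ * ‖U (star (A x))‖ := hP _ _
          _ < ‖x‖ * (‖U‖ * ‖A x‖) := mul_lt_mul_of_pos_left h1 hx0
          _ = (‖U‖ * ‖x‖) * ‖A x‖ := by ring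
      exact lt_of_mul_lt_mul_right h2 hAx0.le
  · refine ContinuousLinearMap.opNorm_le_bound _ (norm_nonneg _) fun b => ?_
    obtain ⟨x, hx, hPx⟩ := hP2 (U b)
    have h1 : ‖U b‖ = ‖inner 𝕜 (star (A x)) b‖ := by
      rw [hA, hPx, RCLike.norm_ofReal, abs_norm]
    have h2 : ‖A x‖ ≤ ‖V.comp A‖ := by
      have h3 := (V.comp A).le_opNorm x
      have h4 : ‖(V.comp A) x‖ = ‖A x‖ := hV _
      rw [h4] at h3
      nlinarith [norm_nonneg (V.comp A)]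
    rw [h1]
    refine (norm_inner_le_norm _ _).trans ?_
    rw [norm_star]
    exact mul_le_mul_of_nonneg_right h2 (norm_nonneg _)
  · change ‖V (A x)‖ ≤ ‖P x w‖ + ‖x‖
    rw [hV]
    have h1 : P x (U (star (A x))) = (star (A x)) 0 • P x w +
        P x (U (star (A x)) - (star (A x)) 0 • w) := by
      rw [map_sub, map_smul]
      abel
    have h2 : ‖(star (A x)) 0‖ ≤ ‖A x‖ := by
      rw [← norm_star (A x)]
      exact lp.norm_apply_le_norm two_ne_zero _ 0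
    have h3 : ‖A x‖ * ‖A x‖ ≤ (‖P x w‖ + ‖x‖) * ‖A x‖ := by
      calc ‖A x‖ * ‖A x‖ = ‖A x‖ ^ 2 := (sq _).symm
        _ ≤ ‖P x (U (star (A x)))‖ := hsq x
        _ ≤ ‖(star (A x)) 0 • P x w‖ + ‖P x (U (star (A x)) - (star (A x)) 0 • w)‖ := by
            rw [h1]
            exact norm_add_le _ _
        _ ≤ ‖A x‖ * ‖P x w‖ + ‖x‖ * ‖A x‖ := by
            refine add_le_add ?_ ?_
            · rw [norm_smul]
              exact mul_le_mul_of_nonneg_right h2 (norm_nonneg _)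
            · refine (hP _ _).trans (mul_le_mul_of_nonneg_left ?_ (norm_nonneg _))
              have h4 := hU3 (star (A x))
              rwa [norm_star] at h4
        _ = (‖P x w‖ + ‖x‖) * ‖A x‖ := by ring
    rcases (norm_nonneg (A x)).lt_or_eq with h4 | h4
    · exact le_of_mul_le_mul_right h3 h4
    · rw [← h4]
      positivity

/-- **Theorem.** Over `𝕜 = ℝ` or `ℂ`, for `1 < p ≤ 2 ≤ q < ∞` with `(p, q) ≠ (2, 2)`, the pair
`(L_p[0,1], L_q[0,1])` does not have the weak maximizing property. -/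
theorem result : ∀ (𝕜 : Type) [RCLike 𝕜] (p q : ℝ≥0∞) [Fact (1 ≤ p)] [Fact (1 ≤ q)],
    1 < p → p ≤ 2 → 2 ≤ q → q ≠ ∞ → ¬ (p = 2 ∧ q = 2) →
    ¬ WMP 𝕜 (Lp 𝕜 p (volume : Measure unitInterval)) (Lp 𝕜 q (volume : Measure unitInterval)) := by
  intro 𝕜 _ p q _ _ hp1 hp2 hq2 hq hne
  have hp : p ≠ ∞ := (hp2.trans_lt (by norm_num)).ne
  set p' := ENNReal.conjExponent p with hp'
  have hconj : ENNReal.HolderConjugate p p' := ENNReal.HolderConjugate.conjExponent hp1.le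
  have hp'1 : 1 ≤ p' := ENNReal.HolderConjugate.one_le p' p
  have hfact : Fact (1 ≤ p') := ⟨hp'1⟩
  have hp't : p' ≠ ∞ := by
    have h := (ENNReal.HolderConjugate.lt_top_iff_one_lt p' p).2 hp1
    exact h.ne
  obtain ⟨P, hP, hP2⟩ := exists_pairing 𝕜 (volume : Measure unitInterval) p p' hp hp't
  by_cases hq2' : 2 < q
  · obtain ⟨V, hV⟩ := exists_V 𝕜 p' hp't
    obtain ⟨U, w, hU1, hU2, hU3⟩ := exists_U 𝕜 q hq hq2'
    exact case_range 𝕜 _ _ _ P hP hP2 V hV U w hU1 hU2 hU3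
  · have hqe : q = 2 := le_antisymm (not_lt.1 hq2') hq2
    have hplt : p < 2 := lt_of_le_of_ne hp2 fun h => hne ⟨h, hqe⟩
    have hp'2 : 2 < p' := by
      have h1 : p - 1 < 1 := by
        rw [ENNReal.sub_lt_iff_lt_right ENNReal.one_ne_top hp1.le]
        norm_num
        exact hplt
      have h2 : 1 < (p - 1)⁻¹ := ENNReal.one_lt_inv.2 h1
      rw [hp', ENNReal.conjExponent]
      calc (2 : ℝ≥0∞) = 1 + 1 := by norm_num
        _ < 1 + (p - 1)⁻¹ := ENNReal.add_lt_add_left ENNReal.one_ne_top h2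
    obtain ⟨V, hV⟩ := exists_V 𝕜 q hq
    obtain ⟨U, w, hU1, hU2, hU3⟩ := exists_U 𝕜 p' hp't hp'2
    exact case_domain 𝕜 _ _ _ P hP hP2 V hV U w hU1 hU2 hU3

end Pool.Agent.Results.MP_30e1ee_an.NoWMP
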